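import Mathlib
import Pool.Agent.Helper62K9.SS.Core

/-!
# Subspaces in the complement of `X` or in `X + X`: no linear bound

For `X ⊆ F_2^n` let `α(X)` be the largest dimension of a projective subspace avoiding `X`, and let
`ω(X + X)` be the largest dimension of a projective subspace contained in `X + X`.  The question is
whether `max (α(X), ω(X + X)) ≥ C n` for some constant `C > 0`.  The answer is no.  For
all `n, s ≥ 1` there is `X ⊆ F_2^n` with `α(X) ≤ 150 n / s` and `ω(X + X) ≤ 150 s ^ 3`.  So, for every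
`ε > 0`, there are sets with `α(X) ≤ ε n` for which `ω(X + X)` is bounded by a constant that depends
only on `ε`; and `s ≈ n ^ (1/4)` gives `max (α(X), ω(X + X)) = O(n ^ (3/4))`.

Construction.  Let `V = F_2^(3 s^3)`, with three coordinates `x_(t,0), x_(t,1), x_(t,2)` for each
`t ∈ [s]^3`, and let `Φ : V → F_2^(3 s)` be the quadratic map with one output for each pair `(g, i)`
with `g ∈ {0, 1, 2}`, `i ∈ [s]`: the sum of `x_(t,g+1) x_(t,g+2)` over all `t` with `t_g = i`.  Let
`T_1, ..., T_k : F_2^m → V` be random linear maps, where `k` is about `12 m / s^2`, and let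
`X ⊆ F_2^(m + 3 s k)` be the graph of `x ↦ (Φ(T_1 x), ..., Φ(T_k x))`.

* `α(X) ≤ 6 s k`: the intersection of `X` with a subspace `W` is the set of common zeros of `3 s k`
  quadratic equations without constant term, and has more than one element if
  `dim W > 6 s k` (Chevalley-Warning).
* Suppose that `W ⊆ X + X` is a subspace.  Then `W` is the graph of a linear map on a subspace `C` of
  `F_2^m`.  For `p ∈ [s]^3` the sum of the three outputs `(g, p_g)` of `Φ` has constant derivative in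
  the directions `w` for which, for all `t`, `w_t` is a multiple of the vector
  `([t_0 = p_0], [t_1 = p_1], [t_2 = p_2])`; this constant is `w_(p,0)`, and it must agree with
  the linear map.  By duality this gives a linear map
  `Ω : V → F_2^([s]^3)` which sends `T_b C` to a space of dimension at most `3 s`, and for
  which each of the `s ^ 3` unit vectors is a combination of images under `Ω` multiplied by
  the indicator functions of the `3 s` sets `{p : p_g = i}`.  Hence
  `s ^ 3 ≤ 3 s (3 s + codim (T_b C))`, so that all images `T_b C` have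
  codimension at least `s ^ 2 / 3 - 3 s` in `V`.
* If `dim C > 6 s^3`, then for random maps `T_b` the latter is excluded by a union
  bound over all `C`.
-/

set_option autoImplicit false

namespace Pool.Agent.Results.MP_6a62c9_co.NoLinearBound

open scoped Pointwise

/-- `ω(Y)`: the largest dimension of a projective subspace `W \ {0}` contained in `Y`. -/
noncomputable def omegaDim {n : ℕ} (Y : Set (Fin n → ZMod 2)) : ℕ :=
  sSup {d : ℕ | ∃ W : Submodule (ZMod 2) (Fin n → ZMod 2),
    (W : Set (Fin n → ZMod 2)) \ {0} ⊆ Y ∧ Module.finrank (ZMod 2) W = d}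

/-- `α(X)`: the largest dimension of a projective subspace avoiding `X`. -/
noncomputable def alphaDim {n : ℕ} (X : Set (Fin n → ZMod 2)) : ℕ :=
  omegaDim Xᶜ

theorem omegaDim_le {n B : ℕ} (Y : Set (Fin n → ZMod 2))
    (h : ∀ W : Submodule (ZMod 2) (Fin n → ZMod 2), (W : Set (Fin n → ZMod 2)) \ {0} ⊆ Y →
      Module.finrank (ZMod 2) W ≤ B) : omegaDim Y ≤ B := by
  apply csSup_le
  · exact ⟨_, ⊥, by simp, rfl⟩
  · rintro d ⟨W, hW, rfl⟩
    exact h W hW

theorem omegaDim_le_n {n : ℕ} (Y : Set (Fin n → ZMod 2)) : omegaDim Y ≤ n := by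
  apply omegaDim_le
  intro W _
  simpa using Submodule.finrank_le W

theorem omegaDim_empty {n : ℕ} : omegaDim (∅ : Set (Fin n → ZMod 2)) = 0 := by
  rw [← Nat.le_zero]
  apply omegaDim_le
  intro W hW
  have : W = ⊥ := by
    rw [eq_bot_iff]
    intro x hx
    by_contra hx0
    exact hW ⟨hx, hx0⟩
  rw [this]
  simp

theorem tradeoff (n s : ℕ) (hn : 1 ≤ n) (hs : 1 ≤ s) : ∃ X : Set (Fin n → ZMod 2),
    (alphaDim X : ℝ) ≤ 150 * n / s ∧ (omegaDim (X + X) : ℝ) ≤ 150 * s ^ 3 := by
  have hs0 : (0 : ℝ) < s := by exact_mod_cast hs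
  rcases Nat.lt_or_ge s 150 with h1 | h1
  · refine ⟨∅, ?_, ?_⟩
    · rw [le_div_iff₀ hs0]
      have h2 : (alphaDim (∅ : Set (Fin n → ZMod 2)) : ℝ) ≤ n := by
        exact_mod_cast omegaDim_le_n _
      have h3 : (s : ℝ) ≤ 150 := by exact_mod_cast h1.le
      have h4 : (0 : ℝ) ≤ n := Nat.cast_nonneg _
      nlinarith
    · rw [Set.empty_add, omegaDim_empty]
      simp only [Nat.cast_zero]
      positivity
  · rcases Nat.lt_or_ge (150 * s ^ 3) n with h2 | h2
    · obtain ⟨m, hm⟩ : ∃ m, m = s ^ 2 / 6 := ⟨_, rfl⟩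
      have hm6 : 6 * m ≤ s ^ 2 := by rw [hm]; exact Nat.mul_div_le _ _
      have hm7 : s ^ 2 < 6 * m + 6 := by
        have := Nat.lt_mul_div_succ (s ^ 2) (by norm_num : 0 < 6)
        rw [← hm] at this
        omega
      have hs2 : 150 * 150 ≤ s ^ 2 := by nlinarith
      have hm1 : 100 ≤ m := by omega
      obtain ⟨t, ht⟩ : ∃ t, t = 2 * n / m + 1 := ⟨_, rfl⟩
      have htm : 2 * n ≤ t * m := by
        have := Nat.lt_mul_div_succ (2 * n) (by omega : 0 < m)
        rw [ht, mul_comm (2 * n / m + 1) m]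
        exact this.le
      have htm2 : t * m ≤ 2 * n + m := by
        rw [ht, add_mul, one_mul]
        exact Nat.add_le_add_right (Nat.div_mul_le_self _ _) _
      have hts : t * s ^ 2 ≤ 14 * n + 2 * s ^ 2 := by
        have ha : s ^ 2 ≤ 7 * m := by omega
        calc t * s ^ 2 ≤ t * (7 * m) := Nat.mul_le_mul_left _ ha
          _ = 7 * (t * m) := by ring
          _ ≤ 7 * (2 * n + m) := Nat.mul_le_mul_left _ htm2
          _ ≤ 14 * n + 2 * s ^ 2 := by omega
      have hs3 : s ^ 2 ≤ n := by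
        have : s ^ 2 ≤ s ^ 3 := Nat.pow_le_pow_right hs (by norm_num)
        omega
      have hle : 3 * s * t ≤ n := by
        have : s * (3 * s * t) ≤ s * n := by
          calc s * (3 * s * t) = 3 * (t * s ^ 2) := by ring
            _ ≤ 3 * (14 * n + 2 * s ^ 2) := Nat.mul_le_mul_left _ hts
            _ ≤ 150 * n := by omega
            _ ≤ s * n := Nat.mul_le_mul_right _ h1
        exact Nat.le_of_mul_le_mul_left this hs
      have ht1 : 1 ≤ t := by rw [ht]; exact Nat.le_add_left 1 _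
      obtain ⟨X, hX1, hX2⟩ := Pool.H62.SS.core s t (n - 3 * s * t) n (by omega) ht1
        (by
          rw [← hm]
          exact (Nat.mul_le_mul_left 2 (Nat.sub_le _ _)).trans htm)
        (Nat.sub_add_cancel hle).symm
      refine ⟨X, ?_, ?_⟩
      · have h3 : alphaDim X ≤ 6 * s * t := omegaDim_le _ hX1
        have h4 : alphaDim X * s ≤ 150 * n := by
          calc alphaDim X * s ≤ 6 * s * t * s := Nat.mul_le_mul_right _ h3
            _ = 6 * (t * s ^ 2) := by ring
            _ ≤ 6 * (14 * n + 2 * s ^ 2) := Nat.mul_le_mul_left _ hts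
            _ ≤ 150 * n := by omega
        rw [le_div_iff₀ hs0]
        exact_mod_cast h4
      · have h3 : omegaDim (X + X) ≤ 6 * s ^ 3 := omegaDim_le _ hX2
        have h4 : omegaDim (X + X) ≤ 150 * s ^ 3 := by
          have : 0 ≤ s ^ 3 := Nat.zero_le _
          omega
        exact_mod_cast h4
    · refine ⟨Set.univ, ?_, ?_⟩
      · rw [alphaDim, Set.compl_univ, omegaDim_empty]
        simp only [Nat.cast_zero]
        positivity
      · have h3 : omegaDim ((Set.univ : Set (Fin n → ZMod 2)) + Set.univ) ≤ 150 * s ^ 3 :=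
          (omegaDim_le_n _).trans h2
        exact_mod_cast h3

/-- The negation of the linear bound, the trade-off, and the bound `O(n ^ (3/4))`. -/
theorem result :
    (∀ C : ℝ, 0 < C → ∃ n : ℕ, 1 ≤ n ∧ ∃ X : Set (Fin n → ZMod 2),
      (alphaDim X : ℝ) < C * n ∧ (omegaDim (X + X) : ℝ) < C * n) ∧
    (∀ n s : ℕ, 1 ≤ n → 1 ≤ s → ∃ X : Set (Fin n → ZMod 2),
      (alphaDim X : ℝ) ≤ 150 * n / s ∧ (omegaDim (X + X) : ℝ) ≤ 150 * s ^ 3) ∧
    (∀ n : ℕ, 1 ≤ n → ∃ X : Set (Fin n → ZMod 2),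
      (alphaDim X : ℝ) ≤ 1200 * (n : ℝ) ^ (3 / 4 : ℝ) ∧
        (omegaDim (X + X) : ℝ) ≤ 1200 * (n : ℝ) ^ (3 / 4 : ℝ)) := by
  refine ⟨?_, tradeoff, ?_⟩
  · intro C hC
    obtain ⟨s, hs⟩ := exists_nat_gt (150 / C)
    have hs0 : (0 : ℝ) < s := lt_trans (by positivity) hs
    have hs1 : 1 ≤ s := by exact_mod_cast Nat.cast_pos.mp hs0
    obtain ⟨n, hn⟩ := exists_nat_gt (150 * (s : ℝ) ^ 3 / C)
    have hn0 : (0 : ℝ) < n := lt_trans (by positivity) hn
    have hn1 : 1 ≤ n := by exact_mod_cast Nat.cast_pos.mp hn0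
    obtain ⟨X, h1, h2⟩ := tradeoff n s hn1 hs1
    refine ⟨n, hn1, X, lt_of_le_of_lt h1 ?_, lt_of_le_of_lt h2 ?_⟩
    · rw [div_lt_iff₀ hs0]
      rw [div_lt_iff₀ hC] at hs
      nlinarith
    · rw [div_lt_iff₀ hC] at hn
      linarith
  · intro n hn
    have hn0 : (1 : ℝ) ≤ n := by exact_mod_cast hn
    have hnp : (0 : ℝ) < n := by linarith
    set x : ℝ := (n : ℝ) ^ (1 / 4 : ℝ) with hx
    have hx1 : 1 ≤ x := Real.one_le_rpow hn0 (by norm_num)
    have hx3 : (n : ℝ) ^ (3 / 4 : ℝ) = x ^ 3 := by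
      rw [hx, ← Real.rpow_natCast, ← Real.rpow_mul hnp.le]
      norm_num
    have hx4 : (n : ℝ) = x ^ 4 := by
      rw [hx, ← Real.rpow_natCast, ← Real.rpow_mul hnp.le]
      norm_num
    have hc1 : x ≤ ⌈x⌉₊ := Nat.le_ceil x
    have hc2 : (⌈x⌉₊ : ℝ) ≤ 2 * x := by
      have := (Nat.ceil_lt_add_one (by linarith : 0 ≤ x)).le
      linarith
    have hs1 : 1 ≤ ⌈x⌉₊ := Nat.one_le_ceil_iff.mpr (by linarith)
    obtain ⟨X, h1, h2⟩ := tradeoff n ⌈x⌉₊ hn hs1
    refine ⟨X, h1.trans ?_, h2.trans ?_⟩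
    · rw [hx3, div_le_iff₀ (by linarith), hx4]
      have h3 : x ^ 3 * x ≤ x ^ 3 * ⌈x⌉₊ := mul_le_mul_of_nonneg_left hc1 (by positivity)
      nlinarith [pow_pos (lt_of_lt_of_le one_pos hx1) 3]
    · rw [hx3]
      have h3 : (⌈x⌉₊ : ℝ) ^ 3 ≤ (2 * x) ^ 3 := pow_le_pow_left₀ (by positivity) hc2 3
      nlinarith

end Pool.Agent.Results.MP_6a62c9_co.NoLinearBound
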